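import Pool.Agent.H41.Color40

set_option autoImplicit false

namespace Pool.Agent.Results.MP_287fcc_lc.Forty

/-- Q2: for n = 5 (four colours) the colour algebra has a representation on 40 points,
and 40 is neither a prime nor a prime power. -/
theorem result :
  ∃ n : ℕ, 4 < n ∧ ∃ (N : ℕ) (c : Fin N → Fin N → Fin (n - 1)),
    2 ≤ N ∧ ¬ IsPrimePow N ∧
    (∀ x y, c x y = c y x) ∧
    (∀ i : Fin (n - 1), ∃ x y, x ≠ y ∧ c x y = i) ∧
    (∀ x y z, x ≠ y → y ≠ z → x ≠ z → ¬ (c x y = c y z ∧ c y z = c x z)) ∧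
    (∀ x y, x ≠ y → ∀ j k : Fin (n - 1), ¬ (j = c x y ∧ k = c x y) →
        ∃ z, z ≠ x ∧ z ≠ y ∧ c x z = j ∧ c z y = k) :=
  ⟨5, by norm_num, 40, Pool.Agent.H41.Color40.col, by norm_num,
    Pool.Agent.H41.Color40.not_primePow, Pool.Agent.H41.Color40.col_symm,
    Pool.Agent.H41.Color40.col_used, Pool.Agent.H41.Color40.col_tri,
    Pool.Agent.H41.Color40.col_wit⟩

end Pool.Agent.Results.MP_287fcc_lc.Forty
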